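import Mathlib
import Pool.Agent.B4777.Main

set_option autoImplicit false
open scoped ComplexOrder MatrixOrder
open Matrix
namespace Pool.Agent.Results.MP_4777ae_an.SeveralMatrices

/-- The spectral power `A ^ r` of a positive semidefinite matrix, exactly as in the frozen
statement: `U diag(λ_i ^ r) U*`. -/
noncomputable def spow {n : ℕ} {A : Matrix (Fin n) (Fin n) ℂ} (hA : A.PosSemidef) (r : ℝ) :
    Matrix (Fin n) (Fin n) ℂ :=
  (hA.isHermitian.eigenvectorUnitary : Matrix (Fin n) (Fin n) ℂ)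
    * Matrix.diagonal (fun i => Complex.ofReal (hA.isHermitian.eigenvalues i ^ r))
    * star (hA.isHermitian.eigenvectorUnitary : Matrix (Fin n) (Fin n) ℂ)

/-- Bourin's inequality for several matrices, with complex coefficients or contractions. -/
theorem result (n : ℕ) (N : Matrix (Fin n) (Fin n) ℂ → ℝ)
    (hh : ∀ (c : ℂ) (X : Matrix (Fin n) (Fin n) ℂ), N (c • X) = ‖c‖ * N X)
    (ht : ∀ X Y, N (X + Y) ≤ N X + N Y)
    (hu : ∀ U ∈ Matrix.unitaryGroup (Fin n) ℂ, ∀ V ∈ Matrix.unitaryGroup (Fin n) ℂ,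
        ∀ X, N (U * X * V) = N X) :
    -- two matrices, complex coefficients
    (∀ (A B : Matrix (Fin n) (Fin n) ℂ) (hA : A.PosSemidef) (hB : B.PosSemidef) (p q : ℝ),
      0 < p → 0 < q → ∀ z w : ℂ, ‖z‖ ≤ 1 → ‖w‖ ≤ 1 →
      N (z • (spow hA p * spow hB q) + w • (spow hB p * spow hA q))
        ≤ N (spow hA (p + q) + spow hB (p + q))) ∧
    -- `m` matrices, complex coefficients
    (∀ (m : ℕ), 2 ≤ m → ∀ (A : Fin m → Matrix (Fin n) (Fin n) ℂ)
      (hA : ∀ i, (A i).PosSemidef) (p q : ℝ), 0 < p → 0 < q →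
      ∀ z : Fin m → Fin m → ℂ, (∀ i j, ‖z i j‖ ≤ 1) →
      N (∑ i, ∑ j ∈ Finset.univ.erase i, z i j • (spow (hA i) p * spow (hA j) q))
        ≤ ((m : ℝ) - 1) * N (∑ i, spow (hA i) (p + q))) ∧
    -- `m` matrices, contractions inserted
    (∀ (m : ℕ), 2 ≤ m → ∀ (A : Fin m → Matrix (Fin n) (Fin n) ℂ)
      (hA : ∀ i, (A i).PosSemidef) (p q : ℝ), 0 < p → p ≤ q →
      ∀ K : Fin m → Fin m → Matrix (Fin n) (Fin n) ℂ,
      (∀ i j, (1 - (K i j)ᴴ * K i j).PosSemidef) →
      N (∑ i, ∑ j ∈ Finset.univ.erase i,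
          spow (hA i) p * spow (hA j) ((q - p) / 2) * K i j * spow (hA j) ((p + q) / 2))
        ≤ ((m : ℝ) - 1) * N (∑ i, spow (hA i) (p + q))) := by
  have hsp : ∀ (A : Matrix (Fin n) (Fin n) ℂ) (hA : A.PosSemidef) (r : ℝ),
      spow hA r = A ^ r := fun A hA r =>
    Pool.Agent.Helper296.Bourin.spec_rpow_eq A hA r
  have h2 : ∀ (m : ℕ), 2 ≤ m → ∀ (A : Fin m → Matrix (Fin n) (Fin n) ℂ)
      (hA : ∀ i, (A i).PosSemidef) (p q : ℝ), 0 < p → 0 < q →
      ∀ z : Fin m → Fin m → ℂ, (∀ i j, ‖z i j‖ ≤ 1) →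
      N (∑ i, ∑ j ∈ Finset.univ.erase i, z i j • (spow (hA i) p * spow (hA j) q))
        ≤ ((m : ℝ) - 1) * N (∑ i, spow (hA i) (p + q)) := by
    intro m hm A hA p q hp hq z hz
    simp only [hsp]
    have hA0 : ∀ i, 0 ≤ A i := fun i => Matrix.nonneg_iff_posSemidef.mpr (hA i)
    exact Pool.Agent.B4777.to_norm hm N hh ht hu _ _
      (Finset.sum_nonneg fun i _ => CFC.rpow_nonneg)
      (fun k G G' hG hG' c hc =>
        Pool.Agent.B4777.kf3 hm A hA0 z hz p q hp hq G G' hG hG' c hc)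
  refine ⟨?_, h2, ?_⟩
  · intro A B hA hB p q hp hq z w hz hw
    have hAB : ∀ i, (![A, B] i).PosSemidef := by
      intro i
      fin_cases i
      · exact hA
      · exact hB
    have h := h2 2 le_rfl ![A, B] hAB p q hp hq ![![0, z], ![w, 0]] (by
      intro i j
      fin_cases i <;> fin_cases j <;> simp [hz, hw])
    simp only [hsp] at h ⊢
    have e0 : (Finset.univ : Finset (Fin 2)).erase 0 = {1} := by decide
    have e1 : (Finset.univ : Finset (Fin 2)).erase 1 = {0} := by decide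
    rw [Fin.sum_univ_two, Fin.sum_univ_two, e0, e1, Finset.sum_singleton,
      Finset.sum_singleton] at h
    have h3 : (((2 : ℕ) : ℝ) - 1) = 1 := by norm_num
    rw [h3, one_mul] at h
    exact h
  · intro m hm A hA p q hp hpq K hK
    simp only [hsp]
    have hA0 : ∀ i, 0 ≤ A i := fun i => Matrix.nonneg_iff_posSemidef.mpr (hA i)
    exact Pool.Agent.B4777.to_norm hm N hh ht hu _ _
      (Finset.sum_nonneg fun i _ => CFC.rpow_nonneg)
      (fun k G G' hG hG' c hc =>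
        Pool.Agent.B4777.kf1 hm A hA0 K (fun i j => Matrix.le_iff.mpr (hK i j)) p q hp hpq
          G G' hG hG' c hc)

end Pool.Agent.Results.MP_4777ae_an.SeveralMatrices
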